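import Pool.Agent.J4H90.PS.Asm

/-!
# `A X + B Y = C Z` in products of small spread: all polynomial families, with growing degrees

`X`, `Y`, `Z` are products whose factors are values, at one integer `t`, of integer polynomials
(of the same degree `e_W ≤ d` for all factors of one product `W`; `e_W = 0`, that is a constant
product, is allowed, but not for all three). If the coefficients of the polynomials, the degrees of
the products, the products of the leading coefficients and `A + B + C + 2` are at most `R`, where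
`R ^ (18 k d + 4) ≤ t`, and each product has at most `k` different factors, then every solution with
`gcd (X, Y) / rad (gcd (X, Y)) ≤ t / 2` has

`(different factors of X) / (degree of X) + ... + (different factors of Z) / (degree of Z) > 1`,

where constant products may be left out of the sum.

A product of spread `s` has at most `s + 1` different factors.

Method: the coefficients of the polynomial `A x(T) + B y(T) - C z(T)` which vanishes at `t` vanish
from the top, because they grow at most like the powers of `R ^ 2`; a truncated Mason-Stothers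
argument (logarithmic derivatives of bounded degree, whatever the exponents are) shows that a
relation of three products of powers of few polynomials which holds up to `9 k d` fewer coefficients
holds identically; then the Mason-Stothers theorem applies.
-/

namespace Pool.Agent.Results.MP_4ffbf9_nt.PolynomialFamilies

open Polynomial

/-- `x` is a nonempty list of positive integers (the factors of a product of degree `x.length`);
the degree is at most `R`, at most `k` factors are different, and the factors `v` are the values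
`v = (F v) (t)` of integer polynomials `F v` of degree `e` with coefficients at most `R` in absolute
value; the product over all factors `v`, with multiplicity, of the absolute values of the leading
coefficients of the polynomials `F v` is at most `R`. -/
def IsFamily (t R e k : ℕ) (x : List ℕ) : Prop :=
  x ≠ [] ∧ (∀ v ∈ x, 0 < v) ∧ x.length ≤ R ∧ x.toFinset.card ≤ k ∧ ∃ F : ℕ → ℤ[X],
    (∀ v ∈ x, (F v).natDegree = e ∧ (∀ i, |(F v).coeff i| ≤ R) ∧ (F v).eval (t : ℤ) = v) ∧
    (x.map fun v => |(F v).leadingCoeff|).prod ≤ R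

/-- the quotient (number of different factors) / (degree) of a product, and `0` for products with
constant polynomials (`e = 0`) -/
noncomputable def quot (e : ℕ) (x : List ℕ) : ℝ :=
  if e = 0 then 0 else (x.toFinset.card : ℝ) / x.length

/-- the product of the primes dividing `g` -/
def rad (g : ℕ) : ℕ := ∏ p ∈ g.primeFactors, p

open Pool.Agent.J4H90.PS in
theorem toPr {t R e d k : ℕ} {x : List ℕ} (h : IsFamily t R e k x) (hd : e ≤ d) :
    ∃ f, Pr t (R : ℤ) (R : ℤ) d k R x.toFinset (fun v => x.count v) f e := by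
  obtain ⟨-, h1, h2, h3, F, h6, h7⟩ := h
  refine ⟨F, ?_, fun v hv => (h6 v (List.mem_toFinset.1 hv)).1,
    fun v hv => (h6 v (List.mem_toFinset.1 hv)).2.1,
    fun v hv => (h6 v (List.mem_toFinset.1 hv)).2.2, fun v hv => h1 v (List.mem_toFinset.1 hv),
    hd, h3, ?_⟩
  · rw [← Finset.prod_list_map_count]
    exact h7
  · rw [List.sum_toFinset_count_eq_length]
    exact h2

theorem val_eq (x : List ℕ) : Pool.Agent.J4H90.PS.val x.toFinset (fun v => x.count v) = x.prod :=
  (Finset.prod_list_count x).symm

theorem arith {a b c e f g l m n : ℕ} (ha : 1 ≤ a) (hb : 1 ≤ b) (hc : 1 ≤ c)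
    (he : 0 < e + f + g) (hl : 1 ≤ l) (hm : 1 ≤ m) (hn : 1 ≤ n)
    (h1 : l * e + 1 ≤ a * e + b * f + c * g) (h2 : m * f + 1 ≤ a * e + b * f + c * g)
    (h3 : n * g + 1 ≤ a * e + b * f + c * g) :
    1 < (if e = 0 then 0 else (a : ℝ) / l) + (if f = 0 then 0 else (b : ℝ) / m) +
      (if g = 0 then 0 else (c : ℝ) / n) := by
  obtain ⟨T, hT⟩ : ∃ T : ℝ, T = (a : ℝ) * e + b * f + c * g := ⟨_, rfl⟩
  have k1 : (l : ℝ) * e + 1 ≤ T := by rw [hT]; exact_mod_cast h1
  have k2 : (m : ℝ) * f + 1 ≤ T := by rw [hT]; exact_mod_cast h2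
  have k3 : (n : ℝ) * g + 1 ≤ T := by rw [hT]; exact_mod_cast h3
  have hT0 : 0 < T := by
    have : (0 : ℝ) ≤ (l : ℝ) * e := by positivity
    linarith
  have key : ∀ a' e' l' : ℕ, 1 ≤ a' → 1 ≤ l' → e' ≠ 0 → (l' : ℝ) * e' + 1 ≤ T →
      (a' : ℝ) * e' / T < (if e' = 0 then 0 else (a' : ℝ) / l') := by
    intro a' e' l' ha' hl' he' h
    have p1 : (0 : ℝ) < a' := by exact_mod_cast ha'
    have p3 : (0 : ℝ) < l' := by exact_mod_cast hl'
    rw [if_neg he', div_lt_div_iff₀ hT0 p3]
    have : (a' : ℝ) * ((l' : ℝ) * e') < a' * T := by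
      apply mul_lt_mul_of_pos_left _ p1
      linarith
    linarith
  have key' : ∀ a' e' l' : ℕ, 1 ≤ a' → 1 ≤ l' → (l' : ℝ) * e' + 1 ≤ T →
      (a' : ℝ) * e' / T ≤ (if e' = 0 then 0 else (a' : ℝ) / l') := by
    intro a' e' l' ha' hl' h
    by_cases he' : e' = 0
    · rw [if_pos he', he']; simp
    · exact (key a' e' l' ha' hl' he' h).le
  have q1 := key' a e l ha hl k1
  have q2 := key' b f m hb hm k2
  have q3 := key' c g n hc hn k3
  have q4 : (a : ℝ) * e / T + (b : ℝ) * f / T + (c : ℝ) * g / T = 1 := by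
    rw [← add_div, ← add_div, ← hT]
    exact div_self hT0.ne'
  by_cases he' : e = 0
  · by_cases hf' : f = 0
    · have := key c g n hc hn (by omega) k3
      linarith
    · have := key b f m hb hm hf' k2
      linarith
  · have := key a e l ha hl he' k1
    linarith

theorem card_pos {x : List ℕ} (h : x ≠ []) : 1 ≤ x.toFinset.card :=
  Finset.card_pos.2 ((List.toFinset_nonempty_iff x).2 h)

theorem length_pos {x : List ℕ} (h : x ≠ []) : 1 ≤ x.length := List.length_pos_iff.2 h

/-- the uniform statement -/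
theorem uniform {d k R t A B C e f g : ℕ} (hR : R ^ (18 * (k * d) + 4) ≤ t) (hA : 0 < A)
    (hB : 0 < B) (hC : 0 < C) (hABC : A + B + C + 2 ≤ R) (he : e ≤ d) (hf : f ≤ d) (hg' : g ≤ d)
    (hefg : 0 < e + f + g) {x y z : List ℕ} (hx : IsFamily t R e k x)
    (hy : IsFamily t R f k y) (hz : IsFamily t R g k z)
    (hg : 2 * Nat.gcd x.prod y.prod ≤ t * rad (Nat.gcd x.prod y.prod))
    (h : A * x.prod + B * y.prod = C * z.prod) : 1 < quot e x + quot f y + quot g z := by
  obtain ⟨fx, px⟩ := toPr hx he
  obtain ⟨fy, py⟩ := toPr hy hf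
  obtain ⟨fz, pz⟩ := toPr hz hg'
  have hR5 : 5 ≤ R := by omega
  have hR1 : 1 ≤ R := by omega
  have hpow : R ^ 4 ≤ R ^ (18 * (k * d) + 4) := Nat.pow_le_pow_right hR1 (by omega)
  have hR4 : 125 * R ≤ R ^ 4 := by
    have : 5 ^ 3 ≤ R ^ 3 := Nat.pow_le_pow_left hR5 3
    calc 125 * R = 5 ^ 3 * R := by norm_num
      _ ≤ R ^ 3 * R := Nat.mul_le_mul_right R this
      _ = R ^ 4 := by ring
  have ht1 : 125 * R ≤ t := by omega
  have hmain : R * R + ((A + B + C) * R) * (R * R) ^ (9 * (k * d) + 1) < t := by
    have e1 : R * (R * R) ^ (9 * (k * d) + 1) = R ^ (18 * (k * d) + 3) := by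
      rw [← pow_two, ← pow_mul, ← pow_succ']
      congr 1
      ring
    have e2 : R * R ≤ R ^ (18 * (k * d) + 3) := by
      rw [← pow_two]
      exact Nat.pow_le_pow_right hR1 (by omega)
    have e3 : 0 < R ^ (18 * (k * d) + 3) := by positivity
    calc R * R + ((A + B + C) * R) * (R * R) ^ (9 * (k * d) + 1)
        = R * R + (A + B + C) * R ^ (18 * (k * d) + 3) := by rw [mul_assoc, e1]
      _ ≤ R ^ (18 * (k * d) + 3) + (A + B + C) * R ^ (18 * (k * d) + 3) := by omega
      _ = (A + B + C + 1) * R ^ (18 * (k * d) + 3) := by ring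
      _ < R * R ^ (18 * (k * d) + 3) := Nat.mul_lt_mul_of_pos_right (by omega) e3
      _ = R ^ (18 * (k * d) + 4) := by rw [← pow_succ']
      _ ≤ t := hR
  have hsum := Pool.Agent.J4H90.PS.no_sol px py pz hA hB hC (by exact_mod_cast hR1)
    (by exact_mod_cast hR1) hR1 (by exact_mod_cast hmain) (by
      have : R + 2 ≤ t := by omega
      exact_mod_cast this) (by
      rw [val_eq, val_eq]
      have h1 : 0 < rad (Nat.gcd x.prod y.prod) :=
        Finset.prod_pos fun p hp => (Nat.prime_of_mem_primeFactors hp).pos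
      have h2 : (0 : ℝ) < rad (Nat.gcd x.prod y.prod) := by exact_mod_cast h1
      have h3 : (2 : ℝ) * Nat.gcd x.prod y.prod ≤ t * rad (Nat.gcd x.prod y.prod) := by
        exact_mod_cast hg
      have h4 : (125 : ℝ) * R ≤ t := by exact_mod_cast ht1
      have h5 : (5 : ℝ) ≤ R := by exact_mod_cast hR5
      change ((Nat.gcd x.prod y.prod : ℕ) : ℝ) < ((t : ℝ) - (((R : ℕ) : ℤ) + 1 : ℝ)) *
        (rad (Nat.gcd x.prod y.prod) : ℝ)
      push_cast
      nlinarith) (by
      rw [List.sum_toFinset_count_eq_length]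
      exact length_pos hx.1) (by
      rw [List.sum_toFinset_count_eq_length]
      exact length_pos hy.1) (by
      rw [List.sum_toFinset_count_eq_length]
      exact length_pos hz.1) hefg (by rw [val_eq, val_eq, val_eq]; exact h)
  rw [List.sum_toFinset_count_eq_length, List.sum_toFinset_count_eq_length,
    List.sum_toFinset_count_eq_length] at hsum
  exact arith (card_pos hx.1) (card_pos hy.1) (card_pos hz.1) hefg (length_pos hx.1)
    (length_pos hy.1) (length_pos hz.1) hsum.1 hsum.2.1 hsum.2.2

theorem IsFamily.mono {t R R' e k k' : ℕ} {x : List ℕ} (h : IsFamily t R e k x) (hR : R ≤ R')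
    (hk : x.toFinset.card ≤ k') : IsFamily t R' e k' x := by
  obtain ⟨h0, h1, h2, h3, F, h6, h7⟩ := h
  refine ⟨h0, h1, h2.trans hR, hk, F, fun v hv => ?_, ?_⟩
  · obtain ⟨g1, g2, g3⟩ := h6 v hv
    exact ⟨g1, fun i => (g2 i).trans (by exact_mod_cast hR), g3⟩
  · exact h7.trans (by exact_mod_cast hR)

/-- a crude bound for the products -/
theorem IsFamily.prod_le {t R e d k T : ℕ} {x : List ℕ} (h : IsFamily t R e k x) (hd : e ≤ d)
    (hR : R ≤ T) (ht : t ≤ T) (hT : 1 ≤ T) : x.prod ≤ ((d + 1) * (T * T ^ d)) ^ T := by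
  obtain ⟨h0, h1, h2, h3, F, h6, h7⟩ := h
  have h8 : ∀ v ∈ x, v ≤ (d + 1) * (T * T ^ d) := by
    intro v hv
    obtain ⟨g1, g2, g3⟩ := h6 v hv
    have g4 : (v : ℤ) ≤ ((d + 1) * (T * T ^ d) : ℕ) := by
      rw [← g3, eval_eq_sum_range, g1]
      calc ∑ i ∈ Finset.range (e + 1), (F v).coeff i * (t : ℤ) ^ i
          ≤ ∑ i ∈ Finset.range (e + 1), ((T * T ^ d : ℕ) : ℤ) := by
            refine Finset.sum_le_sum fun i hi => ?_
            have hi' : i ≤ d := by
              have := Finset.mem_range.1 hi
              omega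
            have g5 : (F v).coeff i ≤ (T : ℤ) :=
              (le_abs_self _).trans ((g2 i).trans (by exact_mod_cast hR))
            have g6 : (t : ℤ) ^ i ≤ (T : ℤ) ^ d := by
              calc (t : ℤ) ^ i ≤ (T : ℤ) ^ i := by gcongr
                _ ≤ (T : ℤ) ^ d := by
                  apply pow_le_pow_right₀ _ hi'
                  exact_mod_cast hT
            push_cast
            exact mul_le_mul g5 g6 (by positivity) (by positivity)
        _ = ((e + 1) * (T * T ^ d) : ℕ) := by
            rw [Finset.sum_const, Finset.card_range]; push_cast; ring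
        _ ≤ ((d + 1) * (T * T ^ d) : ℕ) := by
            have : (e + 1) * (T * T ^ d) ≤ (d + 1) * (T * T ^ d) :=
              Nat.mul_le_mul_right _ (by omega)
            exact_mod_cast this
    exact_mod_cast g4
  calc x.prod ≤ ((d + 1) * (T * T ^ d)) ^ x.length := List.prod_le_pow_card x _ h8
    _ ≤ ((d + 1) * (T * T ^ d)) ^ T := Nat.pow_le_pow_right (by positivity) (h2.trans hR)

/-- **Theorem.** (1) Let `R ^ (18 k d + 4) ≤ t`, `A, B, C > 0` and `A + B + C + 2 ≤ R`. If
`A X + B Y = C Z`, where `X`, `Y`, `Z` are products of at most `R` factors, at most `k` of them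
different, which are values at `t` of integer polynomials of degrees `e`, `f`, `g` (for the factors
of `X`, `Y`, `Z`; at most `d` and not all `0`) with coefficients at most `R`, the products of the
leading coefficients being at most `R` (`IsFamily`), and if
`gcd (X, Y) ≤ (t / 2) rad (gcd (X, Y))`, then the sum of the quotients (number of different
factors) / (degree) of `X`, `Y`, `Z` is greater than `1`, even if the products with constant
polynomials (`e = 0`, `f = 0` or `g = 0`) are left out of the sum.
(2) For all `A, B, C > 0`, `d` and `Q` only finitely many triples `(X, Y, Z)` satisfy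
`A X + B Y = C Z`, `gcd (X, Y) ≤ Q rad (gcd (X, Y))` and have, for some `t`, `R`, `k` with
`1 ≤ t` and `R ^ (18 k d + 4) ≤ t`, such representations for which this sum is at most `1`.
(3) All polynomial families: if all factors of a product lie within `S` of `β (t)`, where `β` is an
integer polynomial of degree `≥ 1` with leading coefficient `λ`, and `n` is the degree of the
product, then the conditions hold with `k = 2 S + 1` as soon as `R ≥ n`, `R ≥ |λ| ^ n` and
`R ≥ |β_i| + S` for all coefficients `β_i`. A product whose value and degree are at most `R`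
satisfies the conditions, with constant polynomials.
(4) A product of spread at most `s` has at most `s + 1` different factors. -/
theorem result :
    (∀ d k R t A B C : ℕ, R ^ (18 * (k * d) + 4) ≤ t → 0 < A → 0 < B → 0 < C → A + B + C + 2 ≤ R →
      ∀ e f g : ℕ, e ≤ d → f ≤ d → g ≤ d → 0 < e + f + g →
      ∀ x y z : List ℕ, IsFamily t R e k x → IsFamily t R f k y → IsFamily t R g k z →
        2 * Nat.gcd x.prod y.prod ≤ t * rad (Nat.gcd x.prod y.prod) →
        A * x.prod + B * y.prod = C * z.prod → 1 < quot e x + quot f y + quot g z) ∧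
    (∀ (A B C d : ℕ) (Q : ℝ), 0 < A → 0 < B → 0 < C →
      {w : ℕ × ℕ × ℕ | A * w.1 + B * w.2.1 = C * w.2.2 ∧
        (Nat.gcd w.1 w.2.1 : ℝ) ≤ Q * rad (Nat.gcd w.1 w.2.1) ∧
        ∃ (t R k e f g : ℕ) (x y z : List ℕ), 1 ≤ t ∧ R ^ (18 * (k * d) + 4) ≤ t ∧
          e ≤ d ∧ f ≤ d ∧ g ≤ d ∧ 0 < e + f + g ∧
          IsFamily t R e k x ∧ IsFamily t R f k y ∧ IsFamily t R g k z ∧
          x.prod = w.1 ∧ y.prod = w.2.1 ∧ z.prod = w.2.2 ∧
          quot e x + quot f y + quot g z ≤ 1}.Finite) ∧
    (∀ (β : ℤ[X]) (S R t : ℕ) (x : List ℕ), 1 ≤ β.natDegree → x ≠ [] → (∀ v ∈ x, 0 < v) →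
      (∀ v ∈ x, |(v : ℤ) - β.eval (t : ℤ)| ≤ S) → x.length ≤ R →
      |β.leadingCoeff| ^ x.length ≤ R → (∀ i, |β.coeff i| + S ≤ R) →
      IsFamily t R β.natDegree (2 * S + 1) x) ∧
    (∀ (R t : ℕ) (x : List ℕ), x ≠ [] → (∀ v ∈ x, 0 < v) → x.length ≤ R → x.prod ≤ R →
      IsFamily t R 0 x.toFinset.card x) ∧
    (∀ (s : ℕ) (x : List ℕ), (∀ v ∈ x, ∀ v' ∈ x, v ≤ v' + s) → x.toFinset.card ≤ s + 1) := by
  refine ⟨fun d k R t A B C hR hA hB hC hABC e f g he hf hg' hefg x y z hx hy hz hg h =>
    uniform hR hA hB hC hABC he hf hg' hefg hx hy hz hg h, ?_, ?_, ?_, ?_⟩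
  · intro A B C d Q hA hB hC
    obtain ⟨H, hH⟩ : ∃ H, H = A + B + C + 2 := ⟨_, rfl⟩
    obtain ⟨q, hq⟩ := exists_nat_ge (2 * Q)
    obtain ⟨T, hT⟩ : ∃ T, T = H ^ (18 * (H * d) + 4) + q := ⟨_, rfl⟩
    have hH1 : 1 ≤ H := by omega
    have hT1 : 1 ≤ T := by
      have : 0 < H ^ (18 * (H * d) + 4) := by positivity
      omega
    obtain ⟨M, hM⟩ : ∃ M, M = ((d + 1) * (T * T ^ d)) ^ T := ⟨_, rfl⟩
    refine Set.Finite.subset
      ((Set.finite_Iic M).prod ((Set.finite_Iic M).prod (Set.finite_Iic M))) ?_
    rintro ⟨X, Y, Z⟩ ⟨h1, h2, t, R, k, e, f, g, x, y, z, ht, hR, he, hf, hg', hefg, hx, hy, hz, rfl,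
      rfl, rfl, h3⟩
    simp only at h1 h2
    have hRt : R ≤ t := by
      refine le_trans ?_ hR
      rcases Nat.eq_zero_or_pos R with h0 | h0
      · rw [h0]; exact Nat.zero_le _
      · exact Nat.le_self_pow (by omega) R
    rcases le_or_gt t T with hle | hgt
    · exact ⟨(hx.prod_le he (hRt.trans hle) hle hT1).trans_eq hM.symm,
        (hy.prod_le hf (hRt.trans hle) hle hT1).trans_eq hM.symm,
        (hz.prod_le hg' (hRt.trans hle) hle hT1).trans_eq hM.symm⟩
    · exfalso
      have hg : 2 * Nat.gcd x.prod y.prod ≤ t * rad (Nat.gcd x.prod y.prod) := by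
        have h4 : (q : ℝ) ≤ t := by
          have : q ≤ t := by omega
          exact_mod_cast this
        have h5 : (0 : ℝ) ≤ rad (Nat.gcd x.prod y.prod) := Nat.cast_nonneg _
        have h6 : (2 : ℝ) * Nat.gcd x.prod y.prod ≤ t * rad (Nat.gcd x.prod y.prod) := by
          nlinarith
        exact_mod_cast h6
      rcases le_or_gt H R with hHR | hHR
      · exact absurd (uniform hR hA hB hC (by omega) he hf hg' hefg hx hy hz hg h1) (not_lt.2 h3)
      · have hcard : ∀ {w : List ℕ} {e : ℕ}, IsFamily t R e k w → w.toFinset.card ≤ H := fun hw =>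
          (List.toFinset_card_le _).trans (hw.2.2.1.trans hHR.le)
        have hRH : H ^ (18 * (H * d) + 4) ≤ t := by omega
        exact absurd (uniform hRH hA hB hC hH.ge he hf hg' hefg (hx.mono hHR.le (hcard hx))
          (hy.mono hHR.le (hcard hy)) (hz.mono hHR.le (hcard hz)) hg h1) (not_lt.2 h3)
  · intro β S R t x hβ hx hpos hS hlen hlead hcoef
    refine ⟨hx, hpos, hlen, ?_, fun v => β + C ((v : ℤ) - β.eval (t : ℤ)),
      fun v hv => ⟨?_, fun i => ?_, ?_⟩, ?_⟩
    · have h1 : x.toFinset.card ≤
          (Finset.Icc (β.eval (t : ℤ) - S) (β.eval (t : ℤ) + S)).card := by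
        refine Finset.card_le_card_of_injOn (fun v : ℕ => (v : ℤ)) (fun v hv => ?_)
          (fun a _ b _ hab => by simpa using hab)
        have := abs_le.1 (hS v (List.mem_toFinset.1 hv))
        simp only [Finset.coe_Icc, Set.mem_Icc]
        constructor <;> linarith [this.1, this.2]
      rw [Int.card_Icc] at h1
      omega
    · exact natDegree_add_C
    · rw [coeff_add, coeff_C]
      have h1 := hS v hv
      have h2 := hcoef i
      split_ifs
      · exact (abs_add_le _ _).trans ((add_le_add le_rfl h1).trans h2)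
      · rw [add_zero]
        have : (0 : ℤ) ≤ S := by positivity
        linarith
    · simp
    · have h1 : ∀ v : ℕ, (β + C ((v : ℤ) - β.eval (t : ℤ))).leadingCoeff = β.leadingCoeff := by
        intro v
        rw [leadingCoeff_add_of_degree_lt']
        exact (degree_C_le.trans_lt (natDegree_pos_iff_degree_pos.1 hβ))
      simp only [h1]
      rw [List.map_const', List.prod_replicate]
      exact hlead
  · intro R t x hx hpos hlen hprod
    refine ⟨hx, hpos, hlen, le_rfl, fun v => C (v : ℤ), fun v hv => ⟨natDegree_C _, fun i => ?_, ?_⟩,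
      ?_⟩
    · rw [coeff_C]
      have h1 : v ≤ R := (List.single_le_prod (fun w hw => hpos w hw) v hv).trans hprod
      split_ifs
      · rw [Nat.abs_cast]; exact_mod_cast h1
      · simp
    · simp
    · have h1 : (x.map fun v : ℕ => |(C (v : ℤ) : ℤ[X]).leadingCoeff|).prod = ((x.prod : ℕ) : ℤ) := by
        rw [Nat.cast_list_prod]
        congr 1
        refine List.map_congr_left fun v _ => ?_
        rw [leadingCoeff_C, Nat.abs_cast]
      rw [h1]
      exact_mod_cast hprod
  · intro s x h
    rcases x.toFinset.eq_empty_or_nonempty with h0 | h0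
    · rw [h0]; simp
    · obtain ⟨m, hm, hmin⟩ := Finset.exists_min_image x.toFinset id h0
      have h1 : x.toFinset ⊆ Finset.Icc m (m + s) := by
        intro v hv
        exact Finset.mem_Icc.2 ⟨hmin v hv, h v (List.mem_toFinset.1 hv) m (List.mem_toFinset.1 hm)⟩
      refine (Finset.card_le_card h1).trans ?_
      rw [Nat.card_Icc]
      omega

end Pool.Agent.Results.MP_4ffbf9_nt.PolynomialFamilies
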