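import Pool.Agent.J4H77.PC.Uni
import Pool.Agent.Results.MP_4ffbf9_nt.FactorWindows

/-!
# Random sums without largest factors of solutions of `A X + B Y = C Z` in products of small spread

Let `x 0, ..., x (k - 1)` be independent random integers with `|x j| ≤ B b ^ j`, of which only a positive
proportion of the scales `j` is known not to be concentrated on one short interval (the other `x j` are
arbitrary, for example constants), and let `Y` be an arbitrary set of at most `b ^ (κ k)` integers of
absolute value at most `B b ^ k`. With a probability of at least `1 - b ^ (-κ k)` there is no solution of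
`A X + B Y = C Z` with `gcd (X, Y) ≤ Q rad (gcd (X, Y))`, coefficients `A, B, C ≤ exp (M ^ δ)` without
prime factors larger than `P` and `X`, `Y`, `Z` products of spread at most `S` of degrees between `R` and
`M ^ δ`, whose largest factor `M` is at a distance of at most `b ^ (κ k)` from one of the integers
`y + x 0 + ... + x (k - 1)`, `y ∈ Y`. (For example `x j = b ^ j d j` with independent digits `d j`, of
which a proportion is random with at least two values, and all the others are prescribed.)

Proof. There are at most `C X ^ θ` largest factors `M ≤ X` of solutions, for every `θ > 0` if `R` is large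
(starting files `HighDegreeCount`, `FactorWindows`). A sum of independent random integers hits an interval
of length `2 b ^ (κ k)` with a probability of at most `exp (- c k)`: choose a set of separated scales among
the given ones, condition on all the other variables, and bound the conditional probabilities from the
largest scale to the smallest one. The union bound over the largest factors and over `Y` gives the result.
-/

set_option autoImplicit false

namespace Pool.Agent.Results.MP_4ffbf9_nt.RandomSums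

open Finset
open Pool.Agent.Results.MP_4ffbf9_nt.FactorWindows (Solved)

/-- a natural number `M` at a distance of at most `R'` from `v` is the largest factor of a solution -/
def SolvedNear (S Q P R : ℕ) (δ R' : ℝ) (v : ℤ) : Prop :=
  ∃ M : ℕ, Solved S Q P R δ M ∧ |(M : ℝ) - v| ≤ R'

open Classical in
/-- The probability of the event `E` if `x 0, ..., x (k - 1)` are independent random integers, where `x j` takes
its values in the finite set `s j`, and the value `x` with the probability `p j x`. -/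
noncomputable def Prob (k : ℕ) (s : ℕ → Finset ℤ) (p : ℕ → ℤ → ℝ) (E : (Fin k → ℤ) → Prop) : ℝ :=
  ∑ x ∈ Fintype.piFinset (fun j : Fin k => s j), if E x then ∏ j : Fin k, p j (x j) else 0

open Classical in
/-- The law of `x j`, `j < k`, is a probability on integers of absolute value at most `B b ^ j`, and, for
`j ∈ J`, no interval `[y, y + b ^ j / B]` has a probability larger than `1 - η`. -/
def Law (b B k : ℕ) (η : ℝ) (J : Finset ℕ) (s : ℕ → Finset ℤ) (p : ℕ → ℤ → ℝ) : Prop :=
  (∀ j < k, (∀ x ∈ s j, 0 ≤ p j x ∧ |x| ≤ (B : ℤ) * (b : ℤ) ^ j) ∧ ∑ x ∈ s j, p j x = 1) ∧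
  ∀ j ∈ J, ∀ y : ℤ, ∑ x ∈ (s j).filter (fun x => y ≤ x ∧ (B : ℤ) * (x - y) ≤ (b : ℤ) ^ j), p j x ≤
    1 - η

section proof

open Pool.Agent.J4H77.PC

theorem prob_eq (k : ℕ) (s : ℕ → Finset ℤ) (p : ℕ → ℤ → ℝ) (E : (Fin k → ℤ) → Prop) :
    Prob k s p E = Ex (fun j : Fin k => s j) (fun j : Fin k => p j) fun x => ch (E x) := by
  unfold Prob Ex ch
  refine sum_congr rfl fun x _ => ?_
  beta_reduce
  by_cases h : E x
  · rw [if_pos h, if_pos h, mul_one]
  · rw [if_neg h, if_neg h, mul_zero]

open Classical in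
/-- few largest factors -/
theorem few_factors (S Q P : ℕ) (θ : ℝ) (hθ : 0 < θ) : ∃ (R : ℕ) (δ : ℝ), 0 < δ ∧ ∃ x₀ : ℕ,
    ∀ x : ℕ, x₀ ≤ x → (((range (x + 1)).filter fun M => Solved S Q P R δ M).card : ℝ) ≤
      (x : ℝ) ^ θ := by
  obtain ⟨R, δ, hδ, C, hC, h⟩ := FactorWindows.count S Q P (θ / 2) (by positivity)
  have ht : Filter.Tendsto (fun x : ℕ => (x : ℝ) ^ (θ / 2)) Filter.atTop Filter.atTop :=
    (tendsto_rpow_atTop (by positivity)).comp tendsto_natCast_atTop_atTop
  obtain ⟨x₀, hx₀⟩ := Filter.eventually_atTop.1 (ht.eventually_ge_atTop (C + 1))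
  refine ⟨R, δ, hδ, x₀ + 1, fun x hx => ?_⟩
  have hx1 : (1 : ℝ) ≤ x := by exact_mod_cast (by omega : 1 ≤ x)
  have h1 := h x (by omega)
  have h2 : ((range (x + 1)).filter fun M => Solved S Q P R δ M) ⊆
      insert 0 ((Ioc 0 x).filter fun M => Solved S Q P R δ M) := by
    intro M hM
    rw [mem_filter, mem_range] at hM
    rw [mem_insert, mem_filter, mem_Ioc]
    rcases Nat.eq_zero_or_pos M with h0 | h0
    · exact Or.inl h0
    · exact Or.inr ⟨⟨h0, by omega⟩, hM.2⟩
  have h3 : (((range (x + 1)).filter fun M => Solved S Q P R δ M).card : ℝ) ≤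
      (((Ioc 0 x).filter fun M => Solved S Q P R δ M).card : ℝ) + 1 := by
    exact_mod_cast (card_le_card h2).trans (card_insert_le _ _)
  have h4 : (1 : ℝ) ≤ (x : ℝ) ^ (θ / 2) := Real.one_le_rpow hx1 (by positivity)
  calc (((range (x + 1)).filter fun M => Solved S Q P R δ M).card : ℝ)
      ≤ C * (x : ℝ) ^ (θ / 2) + 1 := h3.trans (by linarith)
    _ ≤ (C + 1) * (x : ℝ) ^ (θ / 2) := by linarith
    _ ≤ (x : ℝ) ^ (θ / 2) * (x : ℝ) ^ (θ / 2) :=
        mul_le_mul_of_nonneg_right (hx₀ x (by omega)) (by positivity)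
    _ = (x : ℝ) ^ θ := by
        rw [← Real.rpow_add (by linarith)]
        congr 1
        ring

end proof

/-- Let `b ≥ 2`, `B ≥ 1`, `γ > 0`, `η > 0` and `S`, `Q`, `P` be fixed. There are `κ > 0`, `R` and `δ > 0`
such that the following holds for all large `k` and all sets `J` of at least `γ k` scales `j < k`. Let
`x 0, ..., x (k - 1)` be independent random integers with `|x j| ≤ B b ^ j`, such that for `j ∈ J` no
interval of the length `b ^ j / B` has a probability larger than `1 - η`, and let `Y` be a set of at most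
`b ^ (κ k)` integers of absolute value at most `B b ^ k`. With a probability of at least
`1 - b ^ (- κ k)` there is no solution of `A X + B Y = C Z` as in `Solved S Q P R δ M` with
`|M - (y + x 0 + ... + x (k - 1))| ≤ b ^ (κ k)` for some `y ∈ Y`. Here `κ` does not depend on `S`, `Q` and
`P`. -/
theorem result (b B : ℕ) (hb : 2 ≤ b) (hB : 1 ≤ B) (γ η : ℝ) (hγ : 0 < γ) (hη : 0 < η) :
    ∃ κ : ℝ, 0 < κ ∧ ∀ S Q P : ℕ, ∃ (R : ℕ) (δ : ℝ), 0 < δ ∧
      ∃ k₀ : ℕ, ∀ k : ℕ, k₀ ≤ k → ∀ J : Finset ℕ, (∀ j ∈ J, j < k) → γ * k ≤ J.card →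
        ∀ (s : ℕ → Finset ℤ) (p : ℕ → ℤ → ℝ), Law b B k η J s p →
          ∀ Y : Finset ℤ, (Y.card : ℝ) ≤ (b : ℝ) ^ (κ * k) →
            (∀ y ∈ Y, |y| ≤ (B : ℤ) * (b : ℤ) ^ k) →
            Prob k s p (fun x => ∃ y ∈ Y, SolvedNear S Q P R δ ((b : ℝ) ^ (κ * k))
              (y + ∑ j, x j)) ≤ (b : ℝ) ^ (-(κ * k)) := by
  classical
  obtain ⟨κ, θ, hκ, hθ, h1⟩ := Pool.Agent.J4H77.PC.few b B hb hB γ η hγ hη
  refine ⟨κ, hκ, fun S Q P => ?_⟩
  obtain ⟨R, δ, hδ, x₀, hx₀⟩ := few_factors S Q P θ hθ
  refine ⟨R, δ, hδ, ?_⟩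
  obtain ⟨k₁, hk₁⟩ := h1 (fun M => Solved S Q P R δ M) x₀ (fun x hx => by
    have h3 := hx₀ x hx
    convert h3)
  refine ⟨k₁, fun k hk J hJ hJc s p hlaw Y hY1 hY2 => ?_⟩
  have h3 := hk₁ k hk J hJ hJc Y hY1 hY2 s p hlaw.1 (fun j hj y => by
    have h4 := hlaw.2 j hj y
    rw [sum_filter] at h4
    exact h4)
  rw [prob_eq]
  refine le_trans (Pool.Agent.J4H77.PC.Ex_mono (s := fun j : Fin k => s j)
    (p := fun j : Fin k => p j) (fun j a ha => ((hlaw.1 j j.2).1 a ha).1) fun x _ =>
      Pool.Agent.J4H77.PC.ch_mono ?_) h3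
  rintro ⟨y, hy, q, hq, hd⟩
  exact ⟨y, hy, q, hq, hd⟩

end Pool.Agent.Results.MP_4ffbf9_nt.RandomSums
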