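import Pool.Agent.J4H84.DS.Thm2

/-!
# `A X + B Y = C Z` in products whose factors have few digits in some base `t`

`X`, `Y`, `Z` are products of degree at most `N` all of whose factors have at most `r` nonzero
digits of absolute value at most `U` in one base `t ≥ 2`, the same for all factors: they are sums
of `r` terms `u t ^ m` with integers `u`, `|u| ≤ U` (`FewDigits`). The exponents `m` are not bounded.

Then only finitely many triples `(X, Y, Z)`, for all bases `t ≥ 2` together, satisfy the conditions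
of the question, even if `F = 1` is allowed, and all factors of all solutions are at most
`r U c ^ E`, where `E` only depends on the degrees and the numbers of factors and digits, and `c` is
a polynomial in `U` and in the data. For `U = t`, that is for all numbers with at most `r` nonzero
digits in base `t`, all factors are smaller than `t ^ E` with `E` independent of `t`.

Method: let `M` be the largest exponent in the (shortest) representations of the factors. By the box
principle there is `G ≥ M / B` such that all exponents are near multiples of `G`, up to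
`h = G / (4 N + 3)`. So `t ^ h v` is, for all factors `v`, the value at `T = t ^ G` of an integer
polynomial with coefficients at most `r U t ^ (2 h)`, a small power of `T`. Within one product these
polynomials have the same degree because the factors are close to each other. The polynomial
`A x(T) + B y(T) - C z(T)` (up to powers of `t ^ h`) vanishes at `T` and has small coefficients, so
that it is `0`; a common square factor of `x(T)` and `y(T)` would give a large common square factor
of `X` and `Y`, up to a power of `t ^ h`; the polynomial of the factor with the exponent `M` is not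
constant because the shortest representation has no vanishing subsum. So the Mason-Stothers theorem
(for polynomials with a squarefree common divisor) gives a contradiction.
-/

namespace Pool.Agent.Results.MP_4ffbf9_nt.SmallDigitFactors

open Pool.Agent.J4H84.DS

/-- **Theorem.** Let `A, B, C > 0`, `N`, `r`, `U` be natural numbers and `M`, `Q` real.

(1) Only finitely many triples `(X, Y, Z)` satisfy `A X + B Y = C Z`,
`gcd (X, Y) ≤ Q rad (gcd (X, Y))` and have representations of degrees at most `N` with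
`σ_W ^ 2 ≤ M b_W` (`σ_W` the spreads, `b_W` the bases) and
`(σ_X + 1) / n_X + (σ_Y + 1) / n_Y + (σ_Z + 1) / n_Z ≤ 1` such that for some `t ≥ 2` all factors
have at most `r` nonzero digits of absolute value at most `U` in base `t` (`FewDigits`).

(2) Explicitly: if `√M ≤ p`, `Q ≤ q` and at most `k` of the factors of `X`, `Y`, `Z` are different,
then all factors are at most `r U c ^ E`, where `c = cst A B C N (r U) q p` and `E = exq N k r`, and
if `c ≤ t` then all factors are at most `r U`.

(3) For `U = t`: there is `E` such that for all `t ≥ 2` all factors of all solutions (with at most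
`r` nonzero digits of size at most `t` in base `t`) are smaller than `t ^ E`. -/
theorem result :
    (∀ (A B C N r U : ℕ) (M Q : ℝ), 0 < A → 0 < B → 0 < C →
      {w : ℕ × ℕ × ℕ | A * w.1 + B * w.2.1 = C * w.2.2 ∧
        (Nat.gcd w.1 w.2.1 : ℝ) ≤ Q * rad (Nat.gcd w.1 w.2.1) ∧
        ∃ (t : ℕ) (x y z : List ℕ) (b b' b'' σ σ' σ'' : ℕ), 2 ≤ t ∧ IsProduct M b σ x ∧
          IsProduct M b' σ' y ∧ IsProduct M b'' σ'' z ∧ (∀ v ∈ x ++ y ++ z, FewDigits t r U v) ∧
          x.length ≤ N ∧ y.length ≤ N ∧ z.length ≤ N ∧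
          x.prod = w.1 ∧ y.prod = w.2.1 ∧ z.prod = w.2.2 ∧
          (σ + 1 : ℝ) / x.length + (σ' + 1 : ℝ) / y.length + (σ'' + 1 : ℝ) / z.length ≤ 1}.Finite) ∧
    (∀ (A B C N r U t q p k : ℕ) (M Q : ℝ), 0 < A → 0 < B → 0 < C → 2 ≤ t → √M ≤ p → Q ≤ q →
      ∀ (x y z : List ℕ) (b b' b'' σ σ' σ'' : ℕ), IsProduct M b σ x →
      IsProduct M b' σ' y → IsProduct M b'' σ'' z → (∀ v ∈ x ++ y ++ z, FewDigits t r U v) →
      x.length ≤ N → y.length ≤ N → z.length ≤ N → (x ++ y ++ z).toFinset.card ≤ k →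
      A * x.prod + B * y.prod = C * z.prod →
      (Nat.gcd x.prod y.prod : ℝ) ≤ Q * rad (Nat.gcd x.prod y.prod) →
      (σ + 1 : ℝ) / x.length + (σ' + 1 : ℝ) / y.length + (σ'' + 1 : ℝ) / z.length ≤ 1 →
      (∀ v ∈ x ++ y ++ z, v ≤ r * U * cst A B C N (r * U) q p ^ exq N k r) ∧
      (cst A B C N (r * U) q p ≤ t → ∀ v ∈ x ++ y ++ z, v ≤ r * U)) ∧
    (∀ (A B C N r : ℕ) (M Q : ℝ), 0 < A → 0 < B → 0 < C → ∃ E : ℕ, ∀ t : ℕ, 2 ≤ t →
      ∀ (x y z : List ℕ) (b b' b'' σ σ' σ'' : ℕ), IsProduct M b σ x →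
      IsProduct M b' σ' y → IsProduct M b'' σ'' z → (∀ v ∈ x ++ y ++ z, FewDigits t r t v) →
      x.length ≤ N → y.length ≤ N → z.length ≤ N →
      A * x.prod + B * y.prod = C * z.prod →
      (Nat.gcd x.prod y.prod : ℝ) ≤ Q * rad (Nat.gcd x.prod y.prod) →
      (σ + 1 : ℝ) / x.length + (σ' + 1 : ℝ) / y.length + (σ'' + 1 : ℝ) / z.length ≤ 1 →
      ∀ v ∈ x ++ y ++ z, v < t ^ E) := by
  have main2 : ∀ {A B C N r U t q p k : ℕ} {M Q : ℝ}, 0 < A → 0 < B → 0 < C → 2 ≤ t → √M ≤ p →
      Q ≤ q → ∀ {x y z : List ℕ} {b b' b'' σ σ' σ'' : ℕ}, IsProduct M b σ x →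
      IsProduct M b' σ' y → IsProduct M b'' σ'' z → (∀ v ∈ x ++ y ++ z, FewDigits t r U v) →
      x.length ≤ N → y.length ≤ N → z.length ≤ N → (x ++ y ++ z).toFinset.card ≤ k →
      A * x.prod + B * y.prod = C * z.prod →
      (Nat.gcd x.prod y.prod : ℝ) ≤ Q * rad (Nat.gcd x.prod y.prod) →
      (σ + 1 : ℝ) / x.length + (σ' + 1 : ℝ) / y.length + (σ'' + 1 : ℝ) / z.length ≤ 1 →
      (∀ v ∈ x ++ y ++ z, v ≤ r * U * cst A B C N (r * U) q p ^ exq N k r) ∧
      (cst A B C N (r * U) q p ≤ t → ∀ v ∈ x ++ y ++ z, v ≤ r * U) := by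
    intro A B C N r U t q p k M Q hA hB hC ht hr hq x y z b b' b'' σ σ' σ'' hx hy hz hs lx ly lz hk
      h hg hF
    have hlarge : cst A B C N (r * U) q p ≤ t → ∀ v ∈ x ++ y ++ z, v ≤ r * U := fun hc =>
      large_base2 hA hB hC hr hq hc hx hy hz
        (fun v hv => (hs v hv).rep.poly (by omega)) lx ly lz h hg hF
    refine ⟨?_, hlarge⟩
    rcases le_total t (cst A B C N (r * U) q p) with hct | hct
    · exact fixed_base2 hA hB hC ht hr hq hx hy hz hct (fun v hv => (hs v hv).rep) lx ly lz hk h hg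
        hF
    · intro v hv
      refine (hlarge hct v hv).trans (Nat.le_mul_of_pos_right _ (pow_pos ?_ _))
      unfold cst
      omega
  have hcard : ∀ {N : ℕ} {x y z : List ℕ}, x.length ≤ N → y.length ≤ N → z.length ≤ N →
      (x ++ y ++ z).toFinset.card ≤ 3 * N := by
    intro N x y z lx ly lz
    refine (List.toFinset_card_le _).trans ?_
    rw [List.length_append, List.length_append]
    omega
  refine ⟨?_, ?_, ?_⟩
  · intro A B C N r U M Q hA hB hC
    obtain ⟨p, hp⟩ := exists_nat_ge (√M)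
    obtain ⟨q, hq⟩ := exists_nat_ge Q
    obtain ⟨H, hH⟩ : ∃ H, H = r * U * cst A B C N (r * U) q p ^ exq N (3 * N) r := ⟨_, rfl⟩
    refine Set.Finite.subset ((Set.finite_Iic ((H + 1) ^ N)).prod
      ((Set.finite_Iic ((H + 1) ^ N)).prod (Set.finite_Iic ((H + 1) ^ N)))) ?_
    rintro ⟨X, Y, Z⟩ ⟨h1, h2, t, x, y, z, b, b', b'', σ, σ', σ'', ht, hx, hy, hz, hs, lx, ly, lz,
      rfl, rfl, rfl, hF⟩
    simp only at h1 h2
    have h3 : ∀ v ∈ x ++ y ++ z, v ≤ H := by
      rw [hH]
      exact (main2 hA hB hC ht hp hq hx hy hz hs lx ly lz (hcard lx ly lz) h1 h2 hF).1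
    have key : ∀ w : List ℕ, (∀ v ∈ w, v ≤ H) → w.length ≤ N → w.prod ≤ (H + 1) ^ N := by
      intro w hw hl
      exact (List.prod_le_pow_card w (H + 1) fun v hv => (hw v hv).trans (Nat.le_succ H)).trans
        (Nat.pow_le_pow_right (Nat.succ_pos H) hl)
    exact ⟨key x (fun v hv => h3 v (by simp [hv])) lx,
      key y (fun v hv => h3 v (by simp [hv])) ly, key z (fun v hv => h3 v (by simp [hv])) lz⟩
  · intro A B C N r U t q p k M Q hA hB hC ht hr hq x y z b b' b'' σ σ' σ'' hx hy hz hs lx ly lz hk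
      h hg hF
    exact main2 hA hB hC ht hr hq hx hy hz hs lx ly lz hk h hg hF
  · intro A B C N r M Q hA hB hC
    obtain ⟨p, hp⟩ := exists_nat_ge (√M)
    obtain ⟨q, hq⟩ := exists_nat_ge Q
    obtain ⟨V, hV⟩ : ∃ V, V = 2 * ((A + B + C) * (r + 1) ^ N) + 2 * r * (1 + p) + q + r + 4 :=
      ⟨_, rfl⟩
    refine ⟨r + 1 + (V + N + 1) * exq N (3 * N) r + 1, ?_⟩
    intro t ht x y z b b' b'' σ σ' σ'' hx hy hz hs lx ly lz h hg hF v hv
    have h1 := (main2 hA hB hC ht hp hq hx hy hz hs lx ly lz (hcard lx ly lz) h hg hF).1 v hv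
    have ht1 : 1 ≤ t := by omega
    have hpow : ∀ n : ℕ, n ≤ t ^ n := fun n =>
      (Nat.lt_two_pow_self (n := n)).le.trans (Nat.pow_le_pow_left ht n)
    have h2 : cst A B C N (r * t) q p ≤ t ^ (V + N + 1) := by
      have e1 : (r * t + 1) ^ N ≤ (r + 1) ^ N * t ^ (N + 1) := by
        calc (r * t + 1) ^ N ≤ ((r + 1) * t) ^ N := by
              apply Nat.pow_le_pow_left
              rw [add_mul, one_mul]
              omega
          _ = (r + 1) ^ N * t ^ N := mul_pow _ _ _
          _ ≤ (r + 1) ^ N * t ^ (N + 1) :=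
            Nat.mul_le_mul_left _ (Nat.pow_le_pow_right ht1 (Nat.le_succ N))
      have e2 : t ≤ t ^ (N + 1) := Nat.le_self_pow (Nat.succ_ne_zero N) t
      have e3 : 1 ≤ t ^ (N + 1) := Nat.one_le_pow _ _ ht1
      calc cst A B C N (r * t) q p
          = 2 * ((A + B + C) * (r * t + 1) ^ N) + 2 * (r * t) * (1 + p) + q + r * t + 4 := rfl
        _ ≤ 2 * ((A + B + C) * ((r + 1) ^ N * t ^ (N + 1))) + 2 * (r * t ^ (N + 1)) * (1 + p) +
            q * t ^ (N + 1) + r * t ^ (N + 1) + 4 * t ^ (N + 1) := by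
          have e4 : q ≤ q * t ^ (N + 1) := Nat.le_mul_of_pos_right q e3
          have e5 : 4 ≤ 4 * t ^ (N + 1) := by omega
          gcongr
        _ = V * t ^ (N + 1) := by rw [hV]; ring
        _ ≤ t ^ V * t ^ (N + 1) := Nat.mul_le_mul_right _ (hpow V)
        _ = t ^ (V + N + 1) := by rw [← pow_add, add_assoc]
    calc v ≤ r * t * cst A B C N (r * t) q p ^ exq N (3 * N) r := h1
      _ ≤ t ^ r * t * (t ^ (V + N + 1)) ^ exq N (3 * N) r := by
        apply Nat.mul_le_mul
        · exact Nat.mul_le_mul_right t (hpow r)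
        · exact Nat.pow_le_pow_left h2 _
      _ = t ^ (r + 1 + (V + N + 1) * exq N (3 * N) r) := by
        rw [← pow_succ, ← pow_mul, ← pow_add]
      _ < t ^ (r + 1 + (V + N + 1) * exq N (3 * N) r + 1) :=
        Nat.pow_lt_pow_right (by omega) (Nat.lt_succ_self _)

end Pool.Agent.Results.MP_4ffbf9_nt.SmallDigitFactors
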