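import Pool.Agent.Results.MP_4ffbf9_nt.AllDegreesCount
import Pool.Agent.Results.MP_4ffbf9_nt.FactorWindows
import Pool.Agent.R559.NP.Near3

/-!
# `A X + B Y = C Z` in products of small spread: finiteness near almost all points of a metric space

Let `φ` be any map which takes the solutions `(X, Y, Z)` (and the coefficients) to a metric space, for
example the quotients `X / Y`, `log X / log Z` in `ℝ`, or the numbers themselves in `ℤ_p`, or in the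
profinite integers, or any combination of such quantities. For all points `ξ` outside a set of
Hausdorff dimension zero, all `τ > 0` and all `S`, `Q`, the solutions in products of spread at most
`S`, of degrees at least `R`, with all factors at most `T`, for which `φ` is at distance at most
`κ T ^ (-τ)` from `ξ`, are FINITE in number, whatever the size of the factors and of the degrees is;
and the coefficients may grow with `T`, if the degrees are at most `T ^ δ`.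

Proof. The solutions are thin by the starting theorems `AllDegreesCount` and `HighDegreeCount` of this
problem, and thin increasing families are finite near the points outside a set of dimension zero
(library, `R559/NP`).
-/

set_option autoImplicit false

namespace Pool.Agent.Results.MP_4ffbf9_nt.SolutionsNearAPoint

open Filter Topology
open AllDegreesCount (IsProduct Solutions Ratios)
open FactorWindows (Coef card_coef)

lemma IsProduct.mono {S T T' R X : ℕ} (hT : T ≤ T') (h : IsProduct S T R X) :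
    IsProduct S T' R X := by
  obtain ⟨l, h1, h2, h3, h4⟩ := h
  exact ⟨l, h1, h2, fun a ha => ⟨(h3 a ha).1, (h3 a ha).2.trans hT⟩, h4⟩

lemma Solutions.mono {S Q T T' R A B C : ℕ} (hT : T ≤ T') :
    Solutions S Q T R A B C ⊆ Solutions S Q T' R A B C := by
  rintro w ⟨h1, h2, h3, h4, h5⟩
  exact ⟨h1, h2, IsProduct.mono hT h3, IsProduct.mono hT h4, IsProduct.mono hT h5⟩

/-- the coefficients and the solutions `((A, B, C), (X, Y, Z))`: `A`, `B`, `C` are positive integers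
at most `exp (T ^ δ)` without prime factors larger than `P`, `A X + B Y = C Z`,
`gcd (X, Y) ≤ Q rad (gcd (X, Y))`, and `X`, `Y`, `Z` are products of spread at most `S` of degrees
between `R` and `T ^ δ` with all factors at most `T` -/
def Systems (S Q P R : ℕ) (δ : ℝ) (T : ℕ) : Set ((ℕ × ℕ × ℕ) × (ℕ × ℕ × ℕ)) :=
  {q | Coef P ((T : ℝ) ^ δ) q.1.1 ∧ Coef P ((T : ℝ) ^ δ) q.1.2.1 ∧ Coef P ((T : ℝ) ^ δ) q.1.2.2 ∧
    q.2 ∈ HighDegreeCount.Solutions S Q T R ((T : ℝ) ^ δ) q.1.1 q.1.2.1 q.1.2.2}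

lemma Systems.mono {S Q P R : ℕ} {δ : ℝ} (hδ : 0 < δ) {T T' : ℕ} (hT : T ≤ T') :
    Systems S Q P R δ T ⊆ Systems S Q P R δ T' := by
  have hD : (T : ℝ) ^ δ ≤ (T' : ℝ) ^ δ :=
    Real.rpow_le_rpow (by positivity) (by exact_mod_cast hT) hδ.le
  have hc : ∀ a, Coef P ((T : ℝ) ^ δ) a → Coef P ((T' : ℝ) ^ δ) a := fun a ha =>
    ⟨ha.1, ha.2.1.trans (Real.exp_le_exp.2 hD), ha.2.2⟩
  have hp : ∀ m, HighDegreeCount.IsProduct S T R ((T : ℝ) ^ δ) m →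
      HighDegreeCount.IsProduct S T' R ((T' : ℝ) ^ δ) m := by
    rintro m ⟨l, h1, h2, h3, h4, h5⟩
    exact ⟨l, h1, h2, h3.trans hD, fun a ha => ⟨(h4 a ha).1, (h4 a ha).2.trans hT⟩, h5⟩
  rintro q ⟨h1, h2, h3, h4, h5, h6, h7, h8⟩
  exact ⟨hc _ h1, hc _ h2, hc _ h3, h4, h5, hp _ h6, hp _ h7, hp _ h8⟩

open Finset in
lemma systems_count (S Q P : ℕ) (η : ℝ) (hη : 0 < η) : ∃ (R : ℕ) (δ : ℝ), 0 < δ ∧ ∃ C : ℝ,
    ∀ T : ℕ, 1 ≤ T → (Systems S Q P R δ T).Finite ∧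
      (((Systems S Q P R δ T).ncard : ℕ) : ℝ) ≤ C * (T : ℝ) ^ η := by
  classical
  obtain ⟨R, δ₀, hδ₀, H⟩ := HighDegreeCount.result S Q P (η / 2) (by positivity)
  set e : ℝ := 3 * ((P : ℝ) + 1) with he
  have he0 : 0 < e := by positivity
  set δ : ℝ := min δ₀ (η / (2 * e)) with hδ
  have hδpos : 0 < δ := lt_min hδ₀ (by positivity)
  have hδe : δ * e ≤ η / 2 := by
    have h1 : δ ≤ η / (2 * e) := min_le_right _ _
    calc δ * e ≤ η / (2 * e) * e := mul_le_mul_of_nonneg_right h1 he0.le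
      _ = η / 2 := by field_simp
  refine ⟨R, δ, hδpos, (3 ^ (P + 1)) ^ 3, fun T hT => ?_⟩
  have hT1 : (1 : ℝ) ≤ T := by exact_mod_cast hT
  have hT0 : (0 : ℝ) < T := by linarith
  set D : ℝ := (T : ℝ) ^ δ with hD
  have hD1 : 1 ≤ D := Real.one_le_rpow hT1 hδpos.le
  have hDD : D ≤ (T : ℝ) ^ δ₀ := Real.rpow_le_rpow_of_exponent_le hT1 (min_le_left _ _)
  set K : Finset ℕ := (Icc 1 ⌊Real.exp D⌋₊).filter (fun a : ℕ => ∀ p : ℕ, p.Prime → p ∣ a → p ≤ P) with hK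
  have hKc : (K.card : ℝ) ≤ (3 * D) ^ (P + 1) := card_coef P D hD1
  have hcoef : ∀ a : ℕ, Coef P D a → a ∈ K := by
    intro a ha
    rw [hK, mem_filter, mem_Icc]
    exact ⟨⟨ha.1, Nat.le_floor ha.2.1⟩, ha.2.2⟩
  have hk : ∀ a ∈ K, 0 < a ∧ (a : ℝ) ≤ Real.exp ((T : ℝ) ^ δ₀) ∧ ∀ p : ℕ, p.Prime → p ∣ a → p ≤ P := by
    intro a ha
    rw [hK, mem_filter, mem_Icc] at ha
    refine ⟨by omega, ?_, ha.2⟩
    calc (a : ℝ) ≤ (⌊Real.exp D⌋₊ : ℝ) := by exact_mod_cast ha.1.2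
      _ ≤ Real.exp D := Nat.floor_le (Real.exp_pos D).le
      _ ≤ Real.exp ((T : ℝ) ^ δ₀) := Real.exp_le_exp.2 hDD
  have hsol : ∀ c ∈ K ×ˢ (K ×ˢ K),
      (HighDegreeCount.Solutions S Q T R D c.1 c.2.1 c.2.2).Finite ∧
      ((HighDegreeCount.Solutions S Q T R D c.1 c.2.1 c.2.2).ncard : ℝ) ≤ (T : ℝ) ^ (η / 2) := by
    intro c hc
    rw [mem_product, mem_product] at hc
    obtain ⟨hf, hn⟩ := H T c.1 c.2.1 c.2.2 hT (by
      intro a ha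
      simp only [mem_insert, mem_singleton] at ha
      rcases ha with rfl | rfl | rfl
      · exact hk _ hc.1
      · exact hk _ hc.2.1
      · exact hk _ hc.2.2)
    have hsubS : HighDegreeCount.Solutions S Q T R D c.1 c.2.1 c.2.2 ⊆
        HighDegreeCount.Solutions S Q T R ((T : ℝ) ^ δ₀) c.1 c.2.1 c.2.2 := by
      have hI : ∀ m, HighDegreeCount.IsProduct S T R D m →
          HighDegreeCount.IsProduct S T R ((T : ℝ) ^ δ₀) m := by
        rintro m ⟨l, h1, h2, h3, h4⟩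
        exact ⟨l, h1, h2, h3.trans hDD, h4⟩
      rintro w ⟨h1, h2, h3, h4, h5⟩
      exact ⟨h1, h2, hI _ h3, hI _ h4, hI _ h5⟩
    exact ⟨hf.subset hsubS, (Nat.cast_le.2 (Set.ncard_le_ncard hsubS hf)).trans hn⟩
  set G : Finset ((ℕ × ℕ × ℕ) × (ℕ × ℕ × ℕ)) := (K ×ˢ (K ×ˢ K)).attach.biUnion
    (fun c => (hsol c.1 c.2).1.toFinset.image (fun w => (c.1, w))) with hG
  have hsub : Systems S Q P R δ T ⊆ (G : Set ((ℕ × ℕ × ℕ) × (ℕ × ℕ × ℕ))) := by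
    rintro ⟨c, w⟩ ⟨h1, h2, h3, h4⟩
    rw [mem_coe, hG, mem_biUnion]
    have hc : c ∈ K ×ˢ (K ×ˢ K) := by
      rw [mem_product, mem_product]
      exact ⟨hcoef _ h1, hcoef _ h2, hcoef _ h3⟩
    refine ⟨⟨c, hc⟩, mem_attach _ _, ?_⟩
    rw [mem_image]
    exact ⟨w, by rw [Set.Finite.mem_toFinset]; exact h4, rfl⟩
  refine ⟨G.finite_toSet.subset hsub, ?_⟩
  have h1 : (((Systems S Q P R δ T).ncard : ℕ) : ℝ) ≤ (G.card : ℝ) := by
    have := Set.ncard_le_ncard hsub G.finite_toSet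
    rw [Set.ncard_coe_finset] at this
    exact_mod_cast this
  have h2 : (G.card : ℝ) ≤ ∑ _c ∈ (K ×ˢ (K ×ˢ K)).attach, (T : ℝ) ^ (η / 2) := by
    calc (G.card : ℝ) ≤ ((∑ c ∈ (K ×ˢ (K ×ˢ K)).attach,
          ((hsol c.1 c.2).1.toFinset.image (fun w => (c.1, w))).card : ℕ) : ℝ) := by
          exact_mod_cast card_biUnion_le
      _ = ∑ c ∈ (K ×ˢ (K ×ˢ K)).attach,
          (((hsol c.1 c.2).1.toFinset.image (fun w => (c.1, w))).card : ℝ) := by push_cast; rfl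
      _ ≤ _ := by
          apply sum_le_sum
          intro c _
          have h3 := Set.ncard_eq_toFinset_card _ (hsol c.1 c.2).1
          calc (((hsol c.1 c.2).1.toFinset.image (fun w => (c.1, w))).card : ℝ)
              ≤ ((hsol c.1 c.2).1.toFinset.card : ℝ) := by exact_mod_cast card_image_le
            _ = ((HighDegreeCount.Solutions S Q T R D c.1.1 c.1.2.1 c.1.2.2).ncard : ℝ) := by
                exact_mod_cast h3.symm
            _ ≤ _ := (hsol c.1 c.2).2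
  rw [sum_const, card_attach, card_product, card_product, nsmul_eq_mul] at h2
  push_cast at h2
  calc (((Systems S Q P R δ T).ncard : ℕ) : ℝ) ≤ (K.card * (K.card * K.card) : ℝ) * (T : ℝ) ^ (η / 2) :=
        h1.trans h2
    _ = (K.card : ℝ) ^ 3 * (T : ℝ) ^ (η / 2) := by ring
    _ ≤ ((3 * D) ^ (P + 1)) ^ 3 * (T : ℝ) ^ (η / 2) := by
        apply mul_le_mul_of_nonneg_right _ (by positivity)
        exact pow_le_pow_left₀ (by positivity) hKc 3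
    _ = (3 ^ (P + 1)) ^ 3 * (D ^ (3 * (P + 1)) * (T : ℝ) ^ (η / 2)) := by
        rw [mul_pow]
        ring
    _ ≤ (3 ^ (P + 1)) ^ 3 * ((T : ℝ) ^ (η / 2) * (T : ℝ) ^ (η / 2)) := by
        apply mul_le_mul_of_nonneg_left _ (by positivity)
        apply mul_le_mul_of_nonneg_right _ (by positivity)
        rw [hD, ← Real.rpow_natCast, ← Real.rpow_mul hT0.le]
        apply Real.rpow_le_rpow_of_exponent_le hT1
        have h7 : (((3 * (P + 1) : ℕ) : ℝ)) = e := by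
          rw [he]
          push_cast
          ring
        rw [h7]
        exact hδe
    _ = (3 ^ (P + 1)) ^ 3 * (T : ℝ) ^ η := by
        rw [← Real.rpow_add hT0, add_halves]

/-- **Finiteness near almost all points.** Let `φ` and `ψ` be maps to a metric space `M`. There is
`E ⊆ M` of Hausdorff dimension zero such that for all `ξ ∈ M` outside `E` and all `τ > 0`:
(1) for all positive integers `A`, `B`, `C` and all `S`, `Q` there is `R` such that for every `κ` only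
finitely many solutions `w = (X, Y, Z)` of `A X + B Y = C Z`, `gcd (X, Y) ≤ Q`, in products of spread at
most `S`, of degrees at least `R`, with all factors at most some `T ≥ 1`, have
`dist (φ ((A, B, C), w)) ξ ≤ κ T ^ (-τ)`, and, for the solutions with
`gcd (X, Y) ≤ Q rad (gcd (X, Y))`, only finitely many ratios `t = A X / (C Z)` have
`dist (ψ ((A, B, C), t)) ξ ≤ κ T ^ (-τ)`;
(2) for all `S`, `Q`, `P` there are `R` and `δ > 0` such that for every `κ` there are only finitely many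
coefficients and solutions `q = ((A, B, C), (X, Y, Z))` as in `Systems`, for some `T ≥ 1`, with
`dist (φ q) ξ ≤ κ T ^ (-τ)`. -/
theorem result (M : Type) [MetricSpace M] (φ : (ℕ × ℕ × ℕ) × (ℕ × ℕ × ℕ) → M)
    (ψ : (ℕ × ℕ × ℕ) × ℚ → M) :
    ∃ E : Set M, dimH E = 0 ∧ ∀ ξ : M, ξ ∉ E → ∀ τ : ℝ, 0 < τ →
      (∀ S Q A B C : ℕ, 0 < A → 0 < B → 0 < C → ∃ R : ℕ, ∀ κ : ℝ,
        {w : ℕ × ℕ × ℕ | ∃ T : ℕ, 1 ≤ T ∧ w ∈ Solutions S Q T R A B C ∧ Nat.gcd w.1 w.2.1 ≤ Q ∧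
          dist (φ ((A, B, C), w)) ξ ≤ κ * (T : ℝ) ^ (-τ)}.Finite ∧
        {t : ℚ | ∃ T : ℕ, 1 ≤ T ∧ t ∈ Ratios S Q T R A B C ∧
          dist (ψ ((A, B, C), t)) ξ ≤ κ * (T : ℝ) ^ (-τ)}.Finite) ∧
      ∀ S Q P : ℕ, ∃ (R : ℕ) (δ : ℝ), 0 < δ ∧ ∀ κ : ℝ,
        {q : (ℕ × ℕ × ℕ) × (ℕ × ℕ × ℕ) | ∃ T : ℕ, 1 ≤ T ∧ q ∈ Systems S Q P R δ T ∧
          dist (φ q) ξ ≤ κ * (T : ℝ) ^ (-τ)}.Finite := by
  classical
  have hlim : Tendsto (fun j : ℕ => 1 / ((j : ℝ) + 1)) atTop (𝓝 0) :=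
    tendsto_one_div_add_atTop_nhds_zero_nat
  -- fixed coefficients
  have H1 : ∀ (j : ℕ) (y : ℕ × ℕ × ℕ × ℕ × ℕ), ∃ (R : ℕ) (C₀ : ℝ), ∀ T : ℕ, 1 ≤ T →
      0 < y.2.2.1 → 0 < y.2.2.2.1 → 0 < y.2.2.2.2 →
      ((Ratios y.1 y.2.1 T R y.2.2.1 y.2.2.2.1 y.2.2.2.2).Finite ∧
        ((Ratios y.1 y.2.1 T R y.2.2.1 y.2.2.2.1 y.2.2.2.2).ncard : ℝ) ≤
          C₀ * (T : ℝ) ^ (1 / ((j : ℝ) + 1))) ∧
      ({w ∈ Solutions y.1 y.2.1 T R y.2.2.1 y.2.2.2.1 y.2.2.2.2 |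
        Nat.gcd w.1 w.2.1 ≤ y.2.1}.Finite ∧
        ({w ∈ Solutions y.1 y.2.1 T R y.2.2.1 y.2.2.2.1 y.2.2.2.2 |
          Nat.gcd w.1 w.2.1 ≤ y.2.1}.ncard : ℝ) ≤ C₀ * (T : ℝ) ^ (1 / ((j : ℝ) + 1))) := by
    intro j y
    by_cases h : 0 < y.2.2.1 ∧ 0 < y.2.2.2.1 ∧ 0 < y.2.2.2.2
    · obtain ⟨R, C₀, -, h1⟩ := AllDegreesCount.result y.1 y.2.1 y.2.2.1 y.2.2.2.1 y.2.2.2.2
        h.1 h.2.1 h.2.2 (1 / ((j : ℝ) + 1)) (by positivity)
      exact ⟨R, C₀, fun T hT _ _ _ => h1 T hT⟩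
    · exact ⟨0, 0, fun T _ h1 h2 h3 => absurd ⟨h1, h2, h3⟩ h⟩
  choose R₁ C₁ hC₁ using H1
  obtain ⟨E₁, hE₁, h₁⟩ := Pool.Agent.R559.NP.near_zero_lvl (Z := ℕ × ℕ × ℕ) (X := M)
    (Y := ℕ × ℕ × ℕ × ℕ × ℕ)
    (F := fun j y T => {w | 0 < y.2.2.1 ∧ 0 < y.2.2.2.1 ∧ 0 < y.2.2.2.2 ∧
      w ∈ Solutions y.1 y.2.1 T (R₁ j y) y.2.2.1 y.2.2.2.1 y.2.2.2.2 ∧
      Nat.gcd w.1 w.2.1 ≤ y.2.1})
    (by
      rintro j y t t' htt w ⟨g1, g2, g3, g4, g5⟩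
      exact ⟨g1, g2, g3, Solutions.mono htt g4, g5⟩)
    (s := fun j => 1 / ((j : ℝ) + 1)) (fun j => by positivity) hlim
    (by
      intro j y
      refine ⟨|C₁ j y|, fun T hT => ?_⟩
      by_cases h : 0 < y.2.2.1 ∧ 0 < y.2.2.2.1 ∧ 0 < y.2.2.2.2
      · obtain ⟨-, g1, g2⟩ := hC₁ j y T hT h.1 h.2.1 h.2.2
        have e : {w | 0 < y.2.2.1 ∧ 0 < y.2.2.2.1 ∧ 0 < y.2.2.2.2 ∧
            w ∈ Solutions y.1 y.2.1 T (R₁ j y) y.2.2.1 y.2.2.2.1 y.2.2.2.2 ∧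
            Nat.gcd w.1 w.2.1 ≤ y.2.1} =
            {w ∈ Solutions y.1 y.2.1 T (R₁ j y) y.2.2.1 y.2.2.2.1 y.2.2.2.2 |
              Nat.gcd w.1 w.2.1 ≤ y.2.1} := by
          apply Set.ext
          intro w
          constructor
          · rintro ⟨-, -, -, g4, g5⟩
            exact ⟨g4, g5⟩
          · rintro ⟨g4, g5⟩
            exact ⟨h.1, h.2.1, h.2.2, g4, g5⟩
        rw [e]
        refine ⟨g1, g2.trans ?_⟩
        exact mul_le_mul_of_nonneg_right (le_abs_self _) (by positivity)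
      · have e : {w : ℕ × ℕ × ℕ | 0 < y.2.2.1 ∧ 0 < y.2.2.2.1 ∧ 0 < y.2.2.2.2 ∧
            w ∈ Solutions y.1 y.2.1 T (R₁ j y) y.2.2.1 y.2.2.2.1 y.2.2.2.2 ∧
            Nat.gcd w.1 w.2.1 ≤ y.2.1} = ∅ := by
          apply Set.eq_empty_of_forall_notMem
          rintro w ⟨g1, g2, g3, -⟩
          exact h ⟨g1, g2, g3⟩
        rw [e]
        refine ⟨Set.finite_empty, ?_⟩
        rw [Set.ncard_empty, Nat.cast_zero]
        positivity)
    (fun y w => φ ((y.2.2.1, y.2.2.2.1, y.2.2.2.2), w))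
  obtain ⟨E₂, hE₂, h₂⟩ := Pool.Agent.R559.NP.near_zero_lvl (Z := ℚ) (X := M)
    (Y := ℕ × ℕ × ℕ × ℕ × ℕ)
    (F := fun j y T => {t | 0 < y.2.2.1 ∧ 0 < y.2.2.2.1 ∧ 0 < y.2.2.2.2 ∧
      t ∈ Ratios y.1 y.2.1 T (R₁ j y) y.2.2.1 y.2.2.2.1 y.2.2.2.2})
    (by
      rintro j y t t' htt w ⟨g1, g2, g3, v, g4, g5⟩
      exact ⟨g1, g2, g3, v, Solutions.mono htt g4, g5⟩)
    (s := fun j => 1 / ((j : ℝ) + 1)) (fun j => by positivity) hlim
    (by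
      intro j y
      refine ⟨|C₁ j y|, fun T hT => ?_⟩
      by_cases h : 0 < y.2.2.1 ∧ 0 < y.2.2.2.1 ∧ 0 < y.2.2.2.2
      · obtain ⟨⟨g1, g2⟩, -⟩ := hC₁ j y T hT h.1 h.2.1 h.2.2
        have e : {t | 0 < y.2.2.1 ∧ 0 < y.2.2.2.1 ∧ 0 < y.2.2.2.2 ∧
            t ∈ Ratios y.1 y.2.1 T (R₁ j y) y.2.2.1 y.2.2.2.1 y.2.2.2.2} =
            Ratios y.1 y.2.1 T (R₁ j y) y.2.2.1 y.2.2.2.1 y.2.2.2.2 := by
          apply Set.ext
          intro w
          constructor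
          · rintro ⟨-, -, -, g4⟩
            exact g4
          · intro g4
            exact ⟨h.1, h.2.1, h.2.2, g4⟩
        rw [e]
        refine ⟨g1, g2.trans ?_⟩
        exact mul_le_mul_of_nonneg_right (le_abs_self _) (by positivity)
      · have e : {t : ℚ | 0 < y.2.2.1 ∧ 0 < y.2.2.2.1 ∧ 0 < y.2.2.2.2 ∧
            t ∈ Ratios y.1 y.2.1 T (R₁ j y) y.2.2.1 y.2.2.2.1 y.2.2.2.2} = ∅ := by
          apply Set.eq_empty_of_forall_notMem
          rintro w ⟨g1, g2, g3, -⟩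
          exact h ⟨g1, g2, g3⟩
        rw [e]
        refine ⟨Set.finite_empty, ?_⟩
        rw [Set.ncard_empty, Nat.cast_zero]
        positivity)
    (fun y t => ψ ((y.2.2.1, y.2.2.2.1, y.2.2.2.2), t))
  -- growing coefficients
  have H3 := fun (j : ℕ) (y : ℕ × ℕ × ℕ) =>
    systems_count y.1 y.2.1 y.2.2 (1 / ((j : ℝ) + 1)) (by positivity)
  choose R₃ δ₃ hδ₃ C₃ hC₃ using H3
  obtain ⟨E₃, hE₃, h₃⟩ := Pool.Agent.R559.NP.near_zero_lvl (Z := (ℕ × ℕ × ℕ) × (ℕ × ℕ × ℕ))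
    (X := M) (Y := ℕ × ℕ × ℕ)
    (F := fun j y T => Systems y.1 y.2.1 y.2.2 (R₃ j y) (δ₃ j y) T)
    (fun j y t t' htt => Systems.mono (hδ₃ j y) htt)
    (s := fun j => 1 / ((j : ℝ) + 1)) (fun j => by positivity) hlim
    (fun j y => ⟨C₃ j y, fun T hT => hC₃ j y T hT⟩) (fun _ q => φ q)
  refine ⟨E₁ ∪ (E₂ ∪ E₃), by rw [dimH_union, dimH_union, hE₁, hE₂, hE₃]; simp, ?_⟩
  intro ξ hξ τ hτ
  rw [Set.mem_union, Set.mem_union, not_or, not_or] at hξ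
  obtain ⟨j₁, hj₁⟩ := h₁ ξ hξ.1 τ hτ
  obtain ⟨j₂, hj₂⟩ := h₂ ξ hξ.2.1 τ hτ
  obtain ⟨j₃, hj₃⟩ := h₃ ξ hξ.2.2 τ hτ
  refine ⟨fun S Q A B C hA hB hC => ?_, fun S Q P => ?_⟩
  · refine ⟨max (R₁ j₁ (S, Q, A, B, C)) (R₁ j₂ (S, Q, A, B, C)), fun κ => ⟨?_, ?_⟩⟩
    · refine (hj₁ (S, Q, A, B, C) κ).subset ?_
      rintro w ⟨T, hT, hw, hg, hd⟩
      refine ⟨T, hT, ⟨hA, hB, hC, ?_, hg⟩, hd⟩
      obtain ⟨g1, g2, g3, g4, g5⟩ := hw
      have hR : ∀ m, IsProduct S T (max (R₁ j₁ (S, Q, A, B, C)) (R₁ j₂ (S, Q, A, B, C))) m →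
          IsProduct S T (R₁ j₁ (S, Q, A, B, C)) m := by
        rintro m ⟨l, k1, k2, k3⟩
        exact ⟨l, k1, (le_max_left _ _).trans k2, k3⟩
      exact ⟨g1, g2, hR _ g3, hR _ g4, hR _ g5⟩
    · refine (hj₂ (S, Q, A, B, C) κ).subset ?_
      rintro t ⟨T, hT, ⟨w, hw, he⟩, hd⟩
      refine ⟨T, hT, ⟨hA, hB, hC, w, ?_, he⟩, hd⟩
      obtain ⟨g1, g2, g3, g4, g5⟩ := hw
      have hR : ∀ m, IsProduct S T (max (R₁ j₁ (S, Q, A, B, C)) (R₁ j₂ (S, Q, A, B, C))) m →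
          IsProduct S T (R₁ j₂ (S, Q, A, B, C)) m := by
        rintro m ⟨l, k1, k2, k3⟩
        exact ⟨l, k1, (le_max_right _ _).trans k2, k3⟩
      exact ⟨g1, g2, hR _ g3, hR _ g4, hR _ g5⟩
  · exact ⟨R₃ j₃ (S, Q, P), δ₃ j₃ (S, Q, P), hδ₃ j₃ (S, Q, P), fun κ => hj₃ (S, Q, P) κ⟩

end Pool.Agent.Results.MP_4ffbf9_nt.SolutionsNearAPoint
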